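import Pool.Agent.H447Z.RvNew

set_option autoImplicit false

open MeasureTheory Filter Topology H447Z.Rv

/-- The Anderson-Weber strategy is not asymptotically optimal: with `n + 1` locations, the limit
`c` of the best Anderson-Weber expected meeting time divided by the number of locations exists and
is at least `0.82885`, while for infinitely many `n` some symmetric strategy has expected meeting
time at most `0.8288 (n + 1)`. -/
theorem Pool.Agent.Results.MP_7e9b7a_co.AWNotOptimal.result :
    ∃ c : ℝ, 0.82885 ≤ c ∧
      Tendsto (fun n : ℕ => awTime (n + 1) / ((n + 1 : ℕ) : ENNReal)) atTop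
        (𝓝 (ENNReal.ofReal c)) ∧
      ∃ᶠ n : ℕ in atTop, ∃ D : Measure (ℕ → Fin (n + 1)),
        IsProbabilityMeasure D ∧ expTime D ≤ ENNReal.ofReal (0.8288 * ((n + 1 : ℕ) : ℝ)) :=
  ⟨cAW, cAW_ge, aw_tendsto, new_freq⟩
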